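import Mathlib
import Pool.Agent.W_MP_23b248_an.Defs
import Pool.Agent.W_MP_23b248_an.Main
import Pool.Agent.W_MP_23b248_an.Example

set_option autoImplicit false

namespace Pool.Agent.Results.MP_23b248_an.CompleteAnswer

open Pool.Agent.W_MP_23b248_an

/-- Q1 has the answer yes among all continuous unimodal maps, and the answer no among those
without wandering intervals. -/
theorem result :
    (∃ (f : unitInterval → unitInterval) (c : unitInterval),
      IsUnimodal f c ∧ IsInfinitelyRecurrent f c ∧ IsLongbranched f c ∧ IsMinimalHomeo f c) ∧
    (∀ (f : unitInterval → unitInterval) (c : unitInterval),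
      IsUnimodal f c → IsInfinitelyRecurrent f c → IsLongbranched f c →
      (∀ a b : unitInterval, ¬ IsWanderingInterval f a b) → ¬ IsMinimalHomeo f c) := by
  refine ⟨exists_example, fun f c hf hrec hlb hno hmin => ?_⟩
  obtain ⟨a, -, b, -, hab⟩ := exists_wandering hf hrec hlb hmin
  exact hno a b hab

end Pool.Agent.Results.MP_23b248_an.CompleteAnswer
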