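import Mathlib
import Pool.Agent.W_MP_23b248_an.Defs
import Pool.Agent.W_MP_23b248_an.Example

set_option autoImplicit false

namespace Pool.Agent.Results.MP_23b248_an.DenjoyExample

open Pool.Agent.W_MP_23b248_an

/-- There is a longbranched unimodal map with infinitely recurrent turning point `c` for which
`f : ω(c) → ω(c)` is a minimal homeomorphism. -/
theorem result : ∃ (f : unitInterval → unitInterval) (c : unitInterval),
    IsUnimodal f c ∧ IsInfinitelyRecurrent f c ∧ IsLongbranched f c ∧ IsMinimalHomeo f c :=
  exists_example

end Pool.Agent.Results.MP_23b248_an.DenjoyExample
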