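import Mathlib
import Pool.Agent.W_MP_23b248_an.Defs
import Pool.Agent.W_MP_23b248_an.Main

set_option autoImplicit false

namespace Pool.Agent.Results.MP_23b248_an.WanderingNecessary

open Pool.Agent.W_MP_23b248_an

/-- If `f` is a longbranched unimodal map with infinitely recurrent turning point `c` and
`f : ω(c) → ω(c)` is a minimal homeomorphism, then `f` has a wandering interval, with both
endpoints in `ω(c)`. -/
theorem result : ∀ (f : unitInterval → unitInterval) (c : unitInterval),
    IsUnimodal f c → IsInfinitelyRecurrent f c → IsLongbranched f c → IsMinimalHomeo f c →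
      ∃ a ∈ omega f c, ∃ b ∈ omega f c, IsWanderingInterval f a b :=
  fun _ _ hf hrec hlb hmin => exists_wandering hf hrec hlb hmin

end Pool.Agent.Results.MP_23b248_an.WanderingNecessary
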